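import Pool.Agent.X171.AM.Defs

/-! Elementary facts on finitely presented actions. -/

namespace Pool.Agent.X171.AM

universe u v w

section
variable {F : Type u} {I : Type v}

lemma bas_apply (g : F) (i : I) (p : F × I) [Decidable (p = (g, i))] :
    bas g i p = if p = (g, i) then 1 else 0 := by
  classical
  unfold bas
  rw [Pi.single_apply]
  congr

lemma sum_bas [Fintype F] [Fintype I] (x : F × I → ℝ) : x = ∑ p : F × I, x p • bas p.1 p.2 := by
  classical
  funext q
  rw [Finset.sum_apply]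
  simp only [Pi.smul_apply, smul_eq_mul, bas_apply, Prod.mk.eta]
  simp

lemma act_add [Group F] (g : F) (x y : F × I → ℝ) : act g (x + y) = act g x + act g y := rfl
lemma act_sub [Group F] (g : F) (x y : F × I → ℝ) : act g (x - y) = act g x - act g y := rfl
lemma act_neg [Group F] (g : F) (x : F × I → ℝ) : act g (-x) = -act g x := rfl
lemma act_smul [Group F] (g : F) (c : ℝ) (x : F × I → ℝ) : act g (c • x) = c • act g x := rfl
lemma act_zero [Group F] (g : F) : act g (0 : F × I → ℝ) = 0 := rfl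
lemma act_one [Group F] (x : F × I → ℝ) : act 1 x = x := by
  funext p
  simp [act]
lemma act_act [Group F] (g h : F) (x : F × I → ℝ) : act g (act h x) = act (g * h) x := by
  funext p
  simp [act, mul_assoc]
lemma act_sum [Group F] (g : F) {ι : Type*} (s : Finset ι) (x : ι → F × I → ℝ) :
    act g (∑ i ∈ s, x i) = ∑ i ∈ s, act g (x i) := by
  funext p
  simp [act, Finset.sum_apply]
lemma act_bas [Group F] (g f : F) (i : I) : act g (bas f i) = bas (g * f) i := by
  classical
  funext p
  unfold act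
  rw [bas_apply, bas_apply]
  congr 1
  apply propext
  constructor
  · intro h
    have h1 := congrArg Prod.fst h
    have h2 := congrArg Prod.snd h
    simp only at h1 h2
    ext
    · rw [← h1]; simp
    · exact h2
  · intro h
    rw [h]
    simp

end

section
variable {F I : Type u} {H J : Type v} [Fintype F] [Fintype I] (φ : F → H) (ψ : I → J)

lemma push_bas (g : F) (i : I) : push φ ψ (bas g i) = bas (φ g) (ψ i) := by
  classical
  unfold push
  simp only [bas_apply g i]
  rw [Finset.sum_eq_single (g, i)]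
  · simp
  · intro p _ hp
    rw [if_neg hp, zero_smul]
  · intro h
    exact absurd (Finset.mem_univ _) h

lemma push_add (x y : F × I → ℝ) : push φ ψ (x + y) = push φ ψ x + push φ ψ y := by
  unfold push
  rw [← Finset.sum_add_distrib]
  exact Finset.sum_congr rfl fun p _ => by rw [Pi.add_apply, add_smul]

lemma push_smul (c : ℝ) (x : F × I → ℝ) : push φ ψ (c • x) = c • push φ ψ x := by
  unfold push
  rw [Finset.smul_sum]
  exact Finset.sum_congr rfl fun p _ => by rw [Pi.smul_apply, smul_assoc]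

lemma push_sub (x y : F × I → ℝ) : push φ ψ (x - y) = push φ ψ x - push φ ψ y := by
  rw [sub_eq_add_neg, push_add, ← neg_one_smul ℝ y, push_smul, neg_one_smul, ← sub_eq_add_neg]

lemma push_sum {ι : Type*} (s : Finset ι) (x : ι → F × I → ℝ) :
    push φ ψ (∑ i ∈ s, x i) = ∑ i ∈ s, push φ ψ (x i) := by
  classical
  induction s using Finset.induction_on with
  | empty =>
    simp only [Finset.sum_empty]
    unfold push
    simp
  | insert a s ha ih => rw [Finset.sum_insert ha, Finset.sum_insert ha, push_add, ih]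

end

namespace FPAction

variable (A : FPAction.{u})

/-- the set of the sizes of the representations of `x` -/
def reps (x : A.F × A.I → ℝ) : Set ℝ :=
  {r | ∃ β : (A.F × A.I → ℝ) → ℝ, x = ∑ w ∈ A.W, β w • w ∧ r = ∑ w ∈ A.W, |β w| * A.nrm w}

lemma reps_bdd (x) : BddBelow (A.reps x) := by
  refine ⟨0, ?_⟩
  rintro r ⟨β, -, rfl⟩
  exact Finset.sum_nonneg fun w hw => mul_nonneg (abs_nonneg _) (A.nonneg w hw)

lemma reps_smul_mem (c : ℝ) {w} (hw : w ∈ A.W) : |c| * A.nrm w ∈ A.reps (c • w) := by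
  classical
  refine ⟨fun v => if v = w then c else 0, ?_, ?_⟩
  · rw [Finset.sum_eq_single w]
    · simp
    · intro v _ hv
      simp only [if_neg hv, zero_smul]
    · intro h
      exact absurd hw h
  · rw [Finset.sum_eq_single w]
    · simp
    · intro v _ hv
      simp only [if_neg hv, abs_zero, zero_mul]
    · intro h
      exact absurd hw h

lemma reps_add {x y} {r s : ℝ} (hr : r ∈ A.reps x) (hs : s ∈ A.reps y) :
    ∃ t ∈ A.reps (x + y), t ≤ r + s := by
  obtain ⟨β, hx, rfl⟩ := hr
  obtain ⟨γ, hy, rfl⟩ := hs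
  refine ⟨_, ⟨fun w => β w + γ w, ?_, rfl⟩, ?_⟩
  · conv_lhs => rw [hx, hy]
    rw [← Finset.sum_add_distrib]
    exact Finset.sum_congr rfl fun w _ => (add_smul _ _ _).symm
  · rw [← Finset.sum_add_distrib]
    refine Finset.sum_le_sum fun w hw => ?_
    rw [← add_mul]
    exact mul_le_mul_of_nonneg_right (abs_add_le _ _) (A.nonneg w hw)

lemma reps_nonempty (x) : (A.reps x).Nonempty := by
  classical
  rw [sum_bas x]
  have : ∀ s : Finset (A.F × A.I), (A.reps (∑ p ∈ s, x p • bas p.1 p.2)).Nonempty := by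
    intro s
    induction s using Finset.induction_on with
    | empty =>
      refine ⟨0, fun _ => 0, ?_, ?_⟩ <;> simp
    | insert a s ha ih =>
      rw [Finset.sum_insert ha]
      obtain ⟨r, hr⟩ := ih
      obtain ⟨t, ht, -⟩ := A.reps_add (A.reps_smul_mem (x a) (A.bas_mem a.1 a.2)) hr
      exact ⟨t, ht⟩
  exact this _

lemma maxExt_add (x y) : A.maxExt (x + y) ≤ A.maxExt x + A.maxExt y := by
  refine le_of_forall_pos_le_add fun ε hε => ?_
  obtain ⟨r, hr, hr'⟩ := exists_lt_of_csInf_lt (A.reps_nonempty x)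
    (show sInf (A.reps x) < A.maxExt x + ε / 2 by
      have : sInf (A.reps x) = A.maxExt x := rfl
      linarith)
  obtain ⟨s, hs, hs'⟩ := exists_lt_of_csInf_lt (A.reps_nonempty y)
    (show sInf (A.reps y) < A.maxExt y + ε / 2 by
      have : sInf (A.reps y) = A.maxExt y := rfl
      linarith)
  obtain ⟨t, ht, ht'⟩ := A.reps_add hr hs
  have : A.maxExt (x + y) ≤ t := csInf_le (A.reps_bdd _) ht
  linarith

lemma maxExt_smul_le (c : ℝ) (x) : A.maxExt (c • x) ≤ |c| * A.maxExt x := by
  have h : ∀ r ∈ A.reps x, A.maxExt (c • x) ≤ |c| * r := by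
    rintro r ⟨β, hx, rfl⟩
    refine csInf_le (A.reps_bdd _) ⟨fun w => c * β w, ?_, ?_⟩
    · conv_lhs => rw [hx]
      rw [Finset.smul_sum]
      exact Finset.sum_congr rfl fun w _ => (mul_smul _ _ _).symm
    · rw [Finset.mul_sum]
      exact Finset.sum_congr rfl fun w _ => by rw [abs_mul, mul_assoc]
  rcases eq_or_ne c 0 with rfl | hc
  · obtain ⟨r, hr⟩ := A.reps_nonempty x
    have := h r hr
    simpa using this
  · have hc' : 0 < |c| := abs_pos.2 hc
    have : A.maxExt (c • x) / |c| ≤ A.maxExt x := by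
      refine le_csInf (A.reps_nonempty x) fun r hr => ?_
      rw [div_le_iff₀ hc', mul_comm]
      exact h r hr
    rwa [div_le_iff₀ hc', mul_comm] at this

lemma maxExt_smul {c : ℝ} (hc : 0 < c) (x) : A.maxExt (c • x) = c * A.maxExt x := by
  apply le_antisymm
  · have := A.maxExt_smul_le c x
    rwa [abs_of_pos hc] at this
  · have := A.maxExt_smul_le c⁻¹ (c • x)
    rw [inv_smul_smul₀ hc.ne', abs_of_pos (inv_pos.2 hc), ← div_eq_inv_mul,
      le_div_iff₀ hc, mul_comm] at this
    exact this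

lemma maxExt_le {w} (hw : w ∈ A.W) : A.maxExt w ≤ A.nrm w := by
  have := csInf_le (A.reps_bdd _) (A.reps_smul_mem 1 hw)
  rw [abs_one, one_mul, one_smul] at this
  exact this

lemma le_maxExt {V : Type*} [SeminormedAddCommGroup V] [NormedSpace ℝ V]
    (L : (A.F × A.I → ℝ) →ₗ[ℝ] V) (hL : ∀ w ∈ A.W, ‖L w‖ ≤ A.nrm w) (x) :
    ‖L x‖ ≤ A.maxExt x := by
  refine le_csInf (A.reps_nonempty x) ?_
  rintro r ⟨β, hx, rfl⟩
  conv_lhs => rw [hx]
  rw [map_sum]
  refine (norm_sum_le _ _).trans (Finset.sum_le_sum fun w hw => ?_)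
  rw [map_smul, norm_smul, Real.norm_eq_abs]
  exact mul_le_mul_of_nonneg_left (hL w hw) (abs_nonneg _)

lemma maxExt_act_le (g : A.F) (x) : A.maxExt (act g x) ≤ A.maxExt x := by
  classical
  refine le_csInf (A.reps_nonempty x) ?_
  rintro r ⟨β, hx, rfl⟩
  have hinj : ∀ w : A.F × A.I → ℝ, act g (act g⁻¹ w) = w := fun w => by
    rw [act_act, mul_inv_cancel, act_one]
  have hinj' : ∀ w : A.F × A.I → ℝ, act g⁻¹ (act g w) = w := fun w => by
    rw [act_act, inv_mul_cancel, act_one]
  refine csInf_le (A.reps_bdd _) ⟨fun w => β (act g⁻¹ w), ?_, ?_⟩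
  · conv_lhs => rw [hx]
    rw [act_sum]
    refine Finset.sum_bij' (fun w _ => act g w) (fun w _ => act g⁻¹ w)
      (fun w hw => A.act_mem g w hw) (fun w hw => A.act_mem g⁻¹ w hw)
      (fun w _ => hinj' w) (fun w _ => hinj w) fun w _ => ?_
    simp only [hinj']
    exact act_smul g _ w
  · refine Finset.sum_bij' (fun w _ => act g w) (fun w _ => act g⁻¹ w)
      (fun w hw => A.act_mem g w hw) (fun w hw => A.act_mem g⁻¹ w hw)
      (fun w _ => hinj' w) (fun w _ => hinj w) fun w hw => ?_
    simp only [hinj']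
    rw [A.inv g w hw]

/-- a norming functional at a vector `a` with `maxExt a = 1` -/
lemma exists_functional {a : A.F × A.I → ℝ} (ha : A.maxExt a = 1) :
    ∃ Ψ : (A.F × A.I → ℝ) →ₗ[ℝ] ℝ, Ψ a = 1 ∧ ∀ x, Ψ x ≤ A.maxExt x := by
  have ha0 : a ≠ 0 := by
    rintro rfl
    have h := A.maxExt_smul_le 0 (0 : A.F × A.I → ℝ)
    rw [zero_smul, abs_zero, zero_mul, ha] at h
    exact absurd h (by norm_num)
  let f : (A.F × A.I → ℝ) →ₗ.[ℝ] ℝ := LinearPMap.mkSpanSingleton a 1 ha0
  obtain ⟨Ψ, h1, h2⟩ := exists_extension_of_le_sublinear f A.maxExt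
    (fun c hc x => A.maxExt_smul hc x) A.maxExt_add (by
      rintro ⟨x, hx⟩
      obtain ⟨c, rfl⟩ := Submodule.mem_span_singleton.1 hx
      show (LinearPMap.mkSpanSingleton a (1 : ℝ) ha0) ⟨c • a, hx⟩ ≤ A.maxExt (c • a)
      have h5 : (LinearPMap.mkSpanSingleton a (1 : ℝ) ha0 : (A.F × A.I → ℝ) →ₗ.[ℝ] ℝ)
          ⟨c • a, hx⟩ = c := by
        refine (LinearPMap.mkSpanSingleton'_apply (σ := RingHom.id ℝ) a (1 : ℝ) _ c hx).trans ?_
        rw [smul_eq_mul, mul_one]
        rfl
      rw [h5]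
      rcases lt_trichotomy c 0 with h | h | h
      · have h3 := A.maxExt_add (c • a) ((-c) • a)
        rw [← add_smul, add_neg_cancel, zero_smul, A.maxExt_smul (neg_pos.2 h), ha] at h3
        have h4 : (0 : ℝ) ≤ A.maxExt 0 := Real.sInf_nonneg (by
          rintro r ⟨β, -, rfl⟩
          exact Finset.sum_nonneg fun w hw => mul_nonneg (abs_nonneg _) (A.nonneg w hw))
        linarith
      · subst h
        rw [zero_smul]
        exact Real.sInf_nonneg (by
          rintro r ⟨β, -, rfl⟩
          exact Finset.sum_nonneg fun w hw => mul_nonneg (abs_nonneg _) (A.nonneg w hw))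
      · rw [A.maxExt_smul h, ha, mul_one])
  refine ⟨Ψ, ?_, h2⟩
  have h3 := h1 ⟨a, Submodule.mem_span_singleton_self a⟩
  rw [h3]
  exact LinearPMap.mkSpanSingleton_apply ℝ ℝ ha0 (1 : ℝ)

end FPAction

end Pool.Agent.X171.AM
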