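import Mathlib

/-!
# Finitely presented isometric actions of finite groups
-/

namespace Pool.Agent.X171.AM

universe u v w

/-- the basis vector `x_{g,i}` of `E_{F,I}` -/
noncomputable def bas {F : Type u} {I : Type v} (g : F) (i : I) : F × I → ℝ :=
  open Classical in Pi.single (g, i) 1

/-- the action `g • x_{f,i} = x_{gf,i}` on `E_{F,I}` -/
def act {F : Type u} {I : Type v} [Group F] (g : F) (x : F × I → ℝ) : F × I → ℝ :=
  fun p => x (g⁻¹ * p.1, p.2)

/-- the linear map `E_{F,I} → E_{H,J}` with `x_{g,i} ↦ x_{φ(g),ψ(i)}` -/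
noncomputable def push {F : Type u} {I : Type u} {H : Type v} {J : Type v} [Fintype F] [Fintype I]
    (φ : F → H) (ψ : I → J) (x : F × I → ℝ) : H × J → ℝ :=
  ∑ p : F × I, x p • bas (φ p.1) (ψ p.2)

/-- A finitely presented action: a finite group `F`, a nonempty finite set `I`, an admissible
finite set `W` in `E_{F,I}` and a partial `F`-norm `nrm` on `W` (the values of `nrm` outside `W`
play no role). -/
structure FPAction where
  /-- the group -/
  F : Type u
  [group : Group F]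
  [fintypeF : Fintype F]
  /-- the index set -/
  I : Type u
  [fintypeI : Fintype I]
  [nonempty : Nonempty I]
  /-- the admissible set -/
  W : Finset (F × I → ℝ)
  /-- the partial norm -/
  nrm : (F × I → ℝ) → ℝ
  zero_mem : 0 ∈ W
  neg_mem : ∀ w ∈ W, -w ∈ W
  act_mem : ∀ g, ∀ w ∈ W, act g w ∈ W
  sub_mem : ∀ i j, i ≠ j → bas 1 i - bas 1 j ∈ W
  bas_mem : ∀ g i, bas g i ∈ W
  nonneg : ∀ w ∈ W, 0 ≤ nrm w
  eq_zero : ∀ w ∈ W, nrm w = 0 ↔ w = 0
  homog : ∀ w ∈ W, ∀ α : ℝ, α • w ∈ W → nrm (α • w) = |α| * nrm w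
  subadd : ∀ w ∈ W, ∀ α : (F × I → ℝ) → ℝ, w = ∑ v ∈ W, α v • v → nrm w ≤ ∑ v ∈ W, |α v| * nrm v
  inv : ∀ g, ∀ w ∈ W, nrm (act g w) = nrm w

attribute [instance] FPAction.group FPAction.fintypeF FPAction.fintypeI FPAction.nonempty

namespace FPAction

variable (A : FPAction.{u})

/-- the maximal extension of the partial norm to `E_{F,I}` -/
noncomputable def maxExt (x : A.F × A.I → ℝ) : ℝ :=
  sInf {r | ∃ β : (A.F × A.I → ℝ) → ℝ, x = ∑ w ∈ A.W, β w • w ∧ r = ∑ w ∈ A.W, |β w| * A.nrm w}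

/-- rational actions -/
def IsRational : Prop :=
  (∀ w ∈ A.W, ∀ p, ∃ q : ℚ, w p = q) ∧ ∀ w ∈ A.W, ∃ q : ℚ, A.nrm w = q

end FPAction

/-- Embeddings of finitely presented actions. -/
structure Emb (A : FPAction.{u}) (B : FPAction.{v}) where
  /-- the homomorphism of the groups -/
  φ : A.F →* B.F
  φ_inj : Function.Injective φ
  /-- the map of the index sets -/
  ψ : A.I → B.I
  ψ_inj : Function.Injective ψ
  isometric : ∀ x, B.maxExt (push φ ψ x) = A.maxExt x

end Pool.Agent.X171.AM
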