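import Pool.Agent.X171.AM.Obstr

/-! The examples. -/

namespace Pool.Agent.X171.AM

universe u v w

/-- the subfield of the rational numbers -/
noncomputable abbrev QQ : Subfield ℝ := (Rat.castHom ℝ).fieldRange

lemma mem_QQ {x : ℝ} : x ∈ QQ ↔ ∃ q : ℚ, x = q := by
  constructor
  · rintro ⟨q, hq⟩
    exact ⟨q, hq.symm⟩
  · rintro ⟨q, hq⟩
    exact ⟨q, hq.symm⟩

section
variable {F I : Type u} [Group F] [Fintype F] [Fintype I]

open Classical in
/-- the basic elements of the admissible sets -/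
noncomputable def S0 (S : Finset (F × I → ℝ)) : Finset (F × I → ℝ) :=
  insert 0 (Finset.univ.image (fun i : I => (bas (1 : F) i)) ∪
    Finset.univ.image (fun p : I × I => (bas (1 : F) p.1 - bas 1 p.2)) ∪ S)

open Classical in
/-- the admissible set generated by `S` -/
noncomputable def WW (S : Finset (F × I → ℝ)) : Finset (F × I → ℝ) :=
  (Finset.univ ×ˢ ((({1, -1} : Finset ℝ)) ×ˢ S0 S)).image
    fun p : F × ℝ × (F × I → ℝ) => p.2.1 • act p.1 p.2.2

lemma mem_WW {S : Finset (F × I → ℝ)} {w : F × I → ℝ} :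
    w ∈ WW S ↔ ∃ g : F, ∃ s : ℝ, (s = 1 ∨ s = -1) ∧ ∃ v ∈ S0 S, w = s • act g v := by
  classical
  unfold WW
  simp only [Finset.mem_image, Finset.mem_product, Finset.mem_univ, true_and,
    Finset.mem_insert, Finset.mem_singleton, Prod.exists]
  constructor
  · rintro ⟨g, s, v, ⟨hs, hv⟩, rfl⟩
    exact ⟨g, s, hs, v, hv, rfl⟩
  · rintro ⟨g, s, hs, v, hv, rfl⟩
    exact ⟨g, s, v, ⟨hs, hv⟩, rfl⟩

lemma mem_S0 {S : Finset (F × I → ℝ)} {v : F × I → ℝ} :
    v ∈ S0 S ↔ v = 0 ∨ (∃ i, v = bas 1 i) ∨ (∃ i j, v = bas 1 i - bas 1 j) ∨ v ∈ S := by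
  classical
  unfold S0
  simp only [Finset.mem_insert, Finset.mem_union, Finset.mem_image, Finset.mem_univ, true_and,
    Prod.exists]
  constructor
  · rintro (h | ((⟨i, rfl⟩ | ⟨i, j, rfl⟩) | h))
    · exact Or.inl h
    · exact Or.inr (Or.inl ⟨i, rfl⟩)
    · exact Or.inr (Or.inr (Or.inl ⟨i, j, rfl⟩))
    · exact Or.inr (Or.inr (Or.inr h))
  · rintro (h | ⟨i, rfl⟩ | ⟨i, j, rfl⟩ | h)
    · exact Or.inl h
    · exact Or.inr (Or.inl (Or.inl ⟨i, rfl⟩))
    · exact Or.inr (Or.inl (Or.inr ⟨i, j, rfl⟩))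
    · exact Or.inr (Or.inr h)

lemma mem_WW_of_mem_S0 {S : Finset (F × I → ℝ)} {v : F × I → ℝ} (hv : v ∈ S0 S) : v ∈ WW S :=
  mem_WW.2 ⟨1, 1, Or.inl rfl, v, hv, by rw [act_one, one_smul]⟩

/-- the action given by a norm `‖L x‖` -/
noncomputable def ofLin (F I : Type u) [Group F] [Fintype F] [Fintype I] [Nonempty I] {κ : Type v}
    [Fintype κ] (L : (F × I → ℝ) →ₗ[ℝ] (κ → ℝ)) (hinj : ∀ x, L x = 0 → x = 0)
    (hinv : ∀ g x, ‖L (act g x)‖ = ‖L x‖) (S : Finset (F × I → ℝ)) : FPAction.{u} where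
  F := F
  I := I
  W := WW S
  nrm := fun x => ‖L x‖
  zero_mem := mem_WW_of_mem_S0 (mem_S0.2 (Or.inl rfl))
  neg_mem := fun w hw => by
    obtain ⟨g, s, hs, v, hv, rfl⟩ := mem_WW.1 hw
    refine mem_WW.2 ⟨g, -s, ?_, v, hv, (neg_smul _ _).symm⟩
    rcases hs with rfl | rfl
    · exact Or.inr rfl
    · exact Or.inl (neg_neg _)
  act_mem := fun g w hw => by
    obtain ⟨g', s, hs, v, hv, rfl⟩ := mem_WW.1 hw
    exact mem_WW.2 ⟨g * g', s, hs, v, hv, by rw [act_smul, act_act]⟩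
  sub_mem := fun i j _ =>
    mem_WW_of_mem_S0 (mem_S0.2 (Or.inr (Or.inr (Or.inl ⟨i, j, rfl⟩))))
  bas_mem := fun g i => mem_WW.2 ⟨g, 1, Or.inl rfl, bas 1 i,
    mem_S0.2 (Or.inr (Or.inl ⟨i, rfl⟩)), by rw [act_bas, mul_one, one_smul]⟩
  nonneg := fun _ _ => norm_nonneg _
  eq_zero := fun w _ => ⟨fun h => hinj w (norm_eq_zero.1 h), fun h => by rw [h, map_zero, norm_zero]⟩
  homog := fun w _ α _ => by rw [map_smul, norm_smul, Real.norm_eq_abs]
  subadd := fun w _ α h => by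
    conv_lhs => rw [h]
    rw [map_sum]
    refine (norm_sum_le _ _).trans (le_of_eq (Finset.sum_congr rfl fun v _ => ?_))
    rw [map_smul, norm_smul, Real.norm_eq_abs]
  inv := fun g w _ => hinv g w

lemma bas_rat (g : F) (i : I) (p : F × I) : bas g i p ∈ QQ := by
  classical
  rw [bas_apply]
  split_ifs
  · exact one_mem _
  · exact zero_mem _

lemma ofLin_rational [Nonempty I] {κ : Type v}
    [Fintype κ] [Nonempty κ] (L : (F × I → ℝ) →ₗ[ℝ] (κ → ℝ)) (hinj : ∀ x, L x = 0 → x = 0)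
    (hinv : ∀ g x, ‖L (act g x)‖ = ‖L x‖) (S : Finset (F × I → ℝ))
    (hS : ∀ v ∈ S, ∀ p, v p ∈ QQ) (hL : ∀ x : F × I → ℝ, (∀ p, x p ∈ QQ) → ∀ k, L x k ∈ QQ) :
    (ofLin F I L hinj hinv S).IsRational := by
  have h0 : ∀ w ∈ WW S, ∀ p, w p ∈ QQ := by
    intro w hw
    obtain ⟨g, s, hs, v, hv, rfl⟩ := mem_WW.1 hw
    have hs' : s ∈ QQ := by
      rcases hs with rfl | rfl
      · exact one_mem _
      · exact neg_mem (one_mem _)
    have hv' : ∀ p, v p ∈ QQ := by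
      rcases mem_S0.1 hv with rfl | ⟨i, rfl⟩ | ⟨i, j, rfl⟩ | h
      · intro p; exact zero_mem _
      · exact bas_rat 1 i
      · intro p; exact sub_mem (bas_rat 1 i p) (bas_rat 1 j p)
      · exact hS v h
    intro p
    exact mul_mem hs' (hv' _)
  refine ⟨fun w hw p => mem_QQ.1 (h0 w hw p), fun w hw => ?_⟩
  obtain ⟨k, hk⟩ := Finite.exists_max fun k => ‖L w k‖
  have h1 : ‖L w‖ = ‖L w k‖ := by
    apply le_antisymm
    · rw [pi_norm_le_iff_of_nonneg (norm_nonneg _)]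
      exact hk
    · exact norm_le_pi_norm _ _
  have h2 := hL w (h0 w hw) k
  have h3 : |L w k| ∈ QQ := by
    rcases abs_choice (L w k) with h | h
    · rw [h]; exact h2
    · rw [h]; exact neg_mem h2
  obtain ⟨q, hq⟩ := mem_QQ.1 h3
  exact ⟨q, by
    show ‖L w‖ = q
    rw [h1, Real.norm_eq_abs, hq]⟩

end

/-- the action `A` of the trivial group on the plane with the sum norm -/
noncomputable def LA : (Unit × Fin 2 → ℝ) →ₗ[ℝ] (Fin 2 → ℝ) where
  toFun x := fun k => x ((), 0) + (if k = 0 then 1 else -1) * x ((), 1)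
  map_add' x y := by
    funext k
    simp only [Pi.add_apply]
    ring
  map_smul' c x := by
    funext k
    simp only [Pi.smul_apply, smul_eq_mul, RingHom.id_apply]
    ring

lemma norm_LA (x) : ‖LA x‖ = |x ((), 0)| + |x ((), 1)| := by
  have h0 : LA x 0 = x ((), 0) + x ((), 1) := by simp [LA]
  have h1 : LA x 1 = x ((), 0) - x ((), 1) := by simp [LA]; ring
  apply le_antisymm
  · rw [pi_norm_le_iff_of_nonneg (by positivity)]
    intro k
    fin_cases k
    · show ‖LA x 0‖ ≤ _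
      rw [h0]
      exact abs_add_le _ _
    · show ‖LA x 1‖ ≤ _
      rw [h1]
      exact abs_sub _ _
  · have k0 := norm_le_pi_norm (LA x) 0
    have k1 := norm_le_pi_norm (LA x) 1
    rw [h0, Real.norm_eq_abs] at k0
    rw [h1, Real.norm_eq_abs] at k1
    rcases abs_cases (x ((), 0)) with ⟨h2, h3⟩ | ⟨h2, h3⟩ <;>
      rcases abs_cases (x ((), 1)) with ⟨h4, h5⟩ | ⟨h4, h5⟩ <;> rw [h2, h4]
    · exact (le_abs_self _).trans k0
    · exact (le_of_eq (by ring)).trans ((le_abs_self _).trans k1)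
    · exact (le_of_eq (by ring)).trans ((neg_le_abs _).trans k1)
    · exact (le_of_eq (by ring)).trans ((neg_le_abs _).trans k0)

lemma LA_inj (x : Unit × Fin 2 → ℝ) (h : LA x = 0) : x = 0 := by
  have h1 := norm_LA x
  rw [h, norm_zero] at h1
  have h2 := abs_nonneg (x ((), 0))
  have h3 := abs_nonneg (x ((), 1))
  funext ⟨⟨⟩, i⟩
  have h4 : x ((), 0) = 0 := abs_eq_zero.1 (by linarith)
  have h5 : x ((), 1) = 0 := abs_eq_zero.1 (by linarith)
  fin_cases i
  · exact h4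
  · exact h5

lemma LA_inv (g : Unit) (x : Unit × Fin 2 → ℝ) : ‖LA (act g x)‖ = ‖LA x‖ := rfl

/-- the action `A` -/
noncomputable def AA : FPAction.{0} := ofLin Unit (Fin 2) LA LA_inj LA_inv ∅

/-- the group of order three -/
abbrev H3 : Type := Multiplicative (ZMod 3)

instance : Fintype H3 := inferInstanceAs (Fintype (ZMod 3))

lemma card_H3 : Fintype.card H3 = 3 := rfl

/-- the coordinates which define the norms of `B` and `C` -/
noncomputable def LB (σ : ℝ) : (H3 × Fin 2 → ℝ) →ₗ[ℝ] (H3 × Fin 4 → ℝ) where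
  toFun x := fun k => match k.2 with
    | 0 => ∑ h, x (h, 0) + σ * x (k.1, 1)
    | 1 => ∑ h, x (h, 0) + σ * (∑ h, x (h, 1) - 2 * x (k.1, 1))
    | 2 => 1 / 2 * x (k.1, 0)
    | 3 => 1 / 2 * x (k.1, 1)
  map_add' x y := by
    funext ⟨h, k⟩
    fin_cases k <;> simp only [Pi.add_apply, Finset.sum_add_distrib] <;> ring
  map_smul' c x := by
    funext ⟨h, k⟩
    fin_cases k <;>
      simp only [Pi.smul_apply, smul_eq_mul, RingHom.id_apply, ← Finset.mul_sum] <;> ring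

section
variable (σ : ℝ) (x : H3 × Fin 2 → ℝ) (h : H3)
lemma LB0 : LB σ x (h, 0) = ∑ h, x (h, 0) + σ * x (h, 1) := rfl
lemma LB1 : LB σ x (h, 1) = ∑ h, x (h, 0) + σ * (∑ h, x (h, 1) - 2 * x (h, 1)) := rfl
lemma LB2 : LB σ x (h, 2) = 1 / 2 * x (h, 0) := rfl
lemma LB3 : LB σ x (h, 3) = 1 / 2 * x (h, 1) := rfl
end

lemma LB_inj (σ : ℝ) (x : H3 × Fin 2 → ℝ) (h : LB σ x = 0) : x = 0 := by
  funext ⟨g, i⟩
  fin_cases i
  · have := congrFun h (g, 2)
    rw [LB2] at this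
    simpa using this
  · have := congrFun h (g, 3)
    rw [LB3] at this
    simpa using this

lemma LB_act (σ : ℝ) (g : H3) (x : H3 × Fin 2 → ℝ) (k : H3 × Fin 4) :
    LB σ (act g x) k = LB σ x (g⁻¹ * k.1, k.2) := by
  have hs : ∀ i, ∑ h, act g x (h, i) = ∑ h, x (h, i) := fun i =>
    Equiv.sum_comp (Equiv.mulLeft g⁻¹) fun h => x (h, i)
  obtain ⟨h, j⟩ := k
  fin_cases j
  · show LB σ (act g x) (h, 0) = LB σ x (g⁻¹ * h, 0)
    rw [LB0, LB0, hs]
    rfl
  · show LB σ (act g x) (h, 1) = LB σ x (g⁻¹ * h, 1)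
    rw [LB1, LB1, hs, hs]
    rfl
  · rfl
  · rfl

lemma LB_inv (σ : ℝ) (g : H3) (x : H3 × Fin 2 → ℝ) : ‖LB σ (act g x)‖ = ‖LB σ x‖ := by
  have key : ∀ (g : H3) (x : H3 × Fin 2 → ℝ), ‖LB σ (act g x)‖ ≤ ‖LB σ x‖ := by
    intro g x
    rw [pi_norm_le_iff_of_nonneg (norm_nonneg _)]
    intro k
    rw [LB_act]
    exact norm_le_pi_norm _ _
  apply le_antisymm (key g x)
  have := key g⁻¹ (act g x)
  rwa [act_act, inv_mul_cancel, act_one] at this

open Classical in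
/-- the extra elements of the admissible set -/
noncomputable def SS (σ : ℝ) : Finset (H3 × Fin 2 → ℝ) :=
  insert ((2 : ℝ) • bas 1 0 - σ • ∑ h : H3, bas h 1)
    (Finset.univ.image fun h : H3 => (2 : ℝ) • bas 1 0 - bas h 0)

/-- the actions `B` (for `σ = 1`) and `C` (for `σ = -1`) -/
noncomputable def BB (σ : ℝ) : FPAction.{0} := ofLin H3 (Fin 2) (LB σ) (LB_inj σ) (LB_inv σ) (SS σ)

lemma AA_rational : AA.IsRational := by
  refine ofLin_rational _ _ _ _ (by simp) fun x hx k => ?_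
  refine add_mem (hx _) (mul_mem ?_ (hx _))
  split_ifs
  · exact one_mem _
  · exact neg_mem (one_mem _)

lemma BB_rational {σ : ℝ} (hσ : σ = 1 ∨ σ = -1) : (BB σ).IsRational := by
  have hσ' : σ ∈ QQ := by
    rcases hσ with rfl | rfl
    · exact one_mem _
    · exact neg_mem (one_mem _)
  have h2 : (2 : ℝ) ∈ QQ := by exact_mod_cast natCast_mem QQ 2
  have h12 : (1 / 2 : ℝ) ∈ QQ := div_mem (one_mem _) h2
  refine ofLin_rational _ _ _ _ ?_ ?_
  · intro v hv
    unfold SS at hv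
    rw [Finset.mem_insert, Finset.mem_image] at hv
    rcases hv with rfl | ⟨h, -, rfl⟩
    · intro p
      simp only [Pi.sub_apply, Pi.smul_apply, smul_eq_mul, Finset.sum_apply]
      exact sub_mem (mul_mem h2 (bas_rat _ _ _))
        (mul_mem hσ' (sum_mem fun h _ => bas_rat _ _ _))
    · intro p
      simp only [Pi.sub_apply, Pi.smul_apply, smul_eq_mul]
      exact sub_mem (mul_mem h2 (bas_rat _ _ _)) (bas_rat _ _ _)
  · rintro x hx ⟨h, k⟩
    fin_cases k
    · exact add_mem (sum_mem fun _ _ => hx _) (mul_mem hσ' (hx _))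
    · exact add_mem (sum_mem fun _ _ => hx _) (mul_mem hσ' (sub_mem (sum_mem fun _ _ => hx _)
        (mul_mem h2 (hx _))))
    · exact mul_mem h12 (hx _)
    · exact mul_mem h12 (hx _)

end Pool.Agent.X171.AM
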