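import Pool.Agent.X171.AM.Exam

/-! The failure of the amalgamation property. -/

namespace Pool.Agent.X171.AM

universe u v w

lemma sum_bas_apply (g : H3) (i j : Fin 2) :
    ∑ h, (bas g i : H3 × Fin 2 → ℝ) (h, j) = if j = i then 1 else 0 := by
  classical
  simp only [bas_apply, Prod.mk.injEq]
  split_ifs with h
  · simp [h]
  · simp [h]

lemma norm_LB_le {σ : ℝ} {x : H3 × Fin 2 → ℝ} {r : ℝ} (hr : 0 ≤ r)
    (h0 : ∀ h, |∑ h, x (h, 0) + σ * x (h, 1)| ≤ r)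
    (h1 : ∀ h, |∑ h, x (h, 0) + σ * (∑ h, x (h, 1) - 2 * x (h, 1))| ≤ r)
    (h2 : ∀ h, |1 / 2 * x (h, 0)| ≤ r) (h3 : ∀ h, |1 / 2 * x (h, 1)| ≤ r) : ‖LB σ x‖ ≤ r := by
  rw [pi_norm_le_iff_of_nonneg hr]
  rintro ⟨h, k⟩
  rw [Real.norm_eq_abs]
  fin_cases k
  · exact h0 h
  · exact h1 h
  · exact h2 h
  · exact h3 h

section
variable {σ : ℝ} (hσ : σ = 1 ∨ σ = -1)
include hσ

lemma norm_bas0 : ‖LB σ (bas 1 0)‖ ≤ 1 := by
  classical
  refine norm_LB_le zero_le_one (fun h => ?_) (fun h => ?_) (fun h => ?_) (fun h => ?_)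
  · rw [sum_bas_apply, bas_apply]
    simp
  · rw [sum_bas_apply, sum_bas_apply, bas_apply]
    simp
  · rw [bas_apply]
    split_ifs <;> norm_num
  · rw [bas_apply]
    split_ifs <;> norm_num

lemma norm_bas1 : ‖LB σ (bas 1 1)‖ ≤ 1 := by
  classical
  refine norm_LB_le zero_le_one (fun h => ?_) (fun h => ?_) (fun h => ?_) (fun h => ?_)
  · rw [sum_bas_apply, bas_apply]
    rcases hσ with rfl | rfl <;> split_ifs <;> simp_all
  · rw [sum_bas_apply, sum_bas_apply, bas_apply]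
    rcases hσ with rfl | rfl <;> split_ifs <;> norm_num <;> simp_all
  · rw [bas_apply]
    split_ifs <;> norm_num
  · rw [bas_apply]
    split_ifs <;> norm_num

lemma norm_v4 (g : H3) : ‖LB σ ((2 : ℝ) • bas 1 0 - bas g 0)‖ ≤ 1 := by
  classical
  have e0 : ∑ h : H3, ((2 : ℝ) • bas 1 0 - bas g 0 : H3 × Fin 2 → ℝ) (h, 0) = 1 := by
    simp only [Pi.sub_apply, Pi.smul_apply, smul_eq_mul, Finset.sum_sub_distrib,
      ← Finset.mul_sum, sum_bas_apply]
    norm_num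
  have e1 : ∀ h : H3, ((2 : ℝ) • bas 1 0 - bas g 0 : H3 × Fin 2 → ℝ) (h, 1) = 0 := fun h => by
    simp only [Pi.sub_apply, Pi.smul_apply, smul_eq_mul, bas_apply]
    simp
  refine norm_LB_le zero_le_one (fun h => ?_) (fun h => ?_) (fun h => ?_) (fun h => ?_)
  · rw [e0, e1]
    norm_num
  · rw [e0, e1, Finset.sum_congr rfl fun h _ => e1 h]
    norm_num
  · simp only [Pi.sub_apply, Pi.smul_apply, smul_eq_mul, bas_apply]
    split_ifs <;> norm_num
  · rw [e1]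
    norm_num

lemma norm_v5 : ‖LB σ ((2 : ℝ) • bas 1 0 - σ • ∑ h : H3, bas h 1)‖ ≤ 1 := by
  classical
  have hσ2 : σ * σ = 1 := by rcases hσ with rfl | rfl <;> norm_num
  have hσa : |σ| = 1 := by rcases hσ with rfl | rfl <;> norm_num
  have e00 : ∀ h : H3, ((2 : ℝ) • bas 1 0 - σ • ∑ h : H3, bas h 1 : H3 × Fin 2 → ℝ) (h, 0) =
      2 * (bas 1 0 : H3 × Fin 2 → ℝ) (h, 0) := fun h => by
    simp only [Pi.sub_apply, Pi.smul_apply, smul_eq_mul, Finset.sum_apply, bas_apply]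
    simp
  have e1 : ∀ h : H3, ((2 : ℝ) • bas 1 0 - σ • ∑ h : H3, bas h 1 : H3 × Fin 2 → ℝ) (h, 1) =
      -σ := fun h => by
    simp only [Pi.sub_apply, Pi.smul_apply, smul_eq_mul, Finset.sum_apply, bas_apply]
    simp
  have e0 : ∑ h : H3, ((2 : ℝ) • bas 1 0 - σ • ∑ h : H3, bas h 1 : H3 × Fin 2 → ℝ) (h, 0) =
      2 := by
    rw [Finset.sum_congr rfl fun h _ => e00 h, ← Finset.mul_sum, sum_bas_apply]
    norm_num
  have e2 : ∑ h : H3, ((2 : ℝ) • bas 1 0 - σ • ∑ h : H3, bas h 1 : H3 × Fin 2 → ℝ) (h, 1) =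
      -3 * σ := by
    rw [Finset.sum_congr rfl fun h _ => e1 h, Finset.sum_const, Finset.card_univ, card_H3]
    simp
  refine norm_LB_le zero_le_one (fun h => ?_) (fun h => ?_) (fun h => ?_) (fun h => ?_)
  · rw [e0, e1]
    have : 2 + σ * -σ = 1 := by linarith
    rw [this, abs_one]
  · rw [e0, e1, e2]
    have : 2 + σ * (-3 * σ - 2 * -σ) = 1 := by
      have : σ * (-3 * σ - 2 * -σ) = -(σ * σ) := by ring
      rw [this, hσ2]
      norm_num
    rw [this, abs_one]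
  · rw [e00, bas_apply]
    split_ifs <;> norm_num
  · rw [e1, abs_mul, abs_neg, hσa]
    norm_num [abs_of_pos]

lemma mem_bas (g : H3) (i : Fin 2) : (bas g i : H3 × Fin 2 → ℝ) ∈ (BB σ).W := (BB σ).bas_mem g i

lemma maxExt_bas0 : (BB σ).maxExt (bas (1 : H3) (0 : Fin 2)) ≤ 1 :=
  ((BB σ).maxExt_le ((BB σ).bas_mem (1 : H3) (0 : Fin 2))).trans (norm_bas0 hσ)

lemma maxExt_bas1 : (BB σ).maxExt (bas (1 : H3) (1 : Fin 2)) ≤ 1 :=
  ((BB σ).maxExt_le ((BB σ).bas_mem (1 : H3) (1 : Fin 2))).trans (norm_bas1 hσ)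

lemma maxExt_v4 (g : H3) :
    (BB σ).maxExt ((2 : ℝ) • bas (1 : H3) (0 : Fin 2) - bas g (0 : Fin 2)) ≤ 1 := by
  refine ((BB σ).maxExt_le (w := (2 : ℝ) • bas (1 : H3) (0 : Fin 2) - bas g (0 : Fin 2)) ?_).trans
    (norm_v4 hσ g)
  refine mem_WW_of_mem_S0 (mem_S0.2 (Or.inr (Or.inr (Or.inr ?_))))
  unfold SS
  rw [Finset.mem_insert, Finset.mem_image]
  exact Or.inr ⟨g, Finset.mem_univ _, rfl⟩

lemma maxExt_v5 :
    (BB σ).maxExt ((2 : ℝ) • bas (1 : H3) (0 : Fin 2) - σ • ∑ h : H3, bas h (1 : Fin 2)) ≤ 1 := by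
  refine ((BB σ).maxExt_le
    (w := (2 : ℝ) • bas (1 : H3) (0 : Fin 2) - σ • ∑ h : H3, bas h (1 : Fin 2)) ?_).trans
    (norm_v5 hσ)
  refine mem_WW_of_mem_S0 (mem_S0.2 (Or.inr (Or.inr (Or.inr ?_))))
  unfold SS
  rw [Finset.mem_insert]
  exact Or.inl rfl

lemma abs_pair (p q : ℝ) (r : ℝ) (h1 : |p + q| ≤ r) (h2 : |p - q| ≤ r) : |p| + |q| ≤ r := by
  rcases abs_cases p with ⟨h3, h4⟩ | ⟨h3, h4⟩ <;> rcases abs_cases q with ⟨h5, h6⟩ | ⟨h5, h6⟩ <;>
    rw [h3, h5] <;> rw [abs_le] at h1 h2 <;> linarith [h1.1, h1.2, h2.1, h2.2]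

lemma maxExt_plane (p q : ℝ) :
    (BB σ).maxExt (p • bas (1 : H3) (0 : Fin 2) + q • bas (1 : H3) (1 : Fin 2)) = |p| + |q| := by
  classical
  apply le_antisymm
  · refine ((BB σ).maxExt_add _ _).trans (add_le_add ?_ ?_)
    · refine ((BB σ).maxExt_smul_le _ _).trans ?_
      exact mul_le_of_le_one_right (abs_nonneg _) (maxExt_bas0 hσ)
    · refine ((BB σ).maxExt_smul_le _ _).trans ?_
      exact mul_le_of_le_one_right (abs_nonneg _) (maxExt_bas1 hσ)
  · refine le_trans ?_ ((BB σ).le_maxExt (LB σ) (fun w _ => le_rfl) _)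
    set x : H3 × Fin 2 → ℝ := p • bas (1 : H3) (0 : Fin 2) + q • bas (1 : H3) (1 : Fin 2) with hx
    have e0 : ∑ h : H3, x (h, 0) = p := by
      simp only [hx, Pi.add_apply, Pi.smul_apply, smul_eq_mul, Finset.sum_add_distrib,
        ← Finset.mul_sum, sum_bas_apply]
      norm_num
    have e1 : ∑ h : H3, x (h, 1) = q := by
      simp only [hx, Pi.add_apply, Pi.smul_apply, smul_eq_mul, Finset.sum_add_distrib,
        ← Finset.mul_sum, sum_bas_apply]
      norm_num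
    have e2 : x (1, 1) = q := by
      simp only [hx, Pi.add_apply, Pi.smul_apply, smul_eq_mul, bas_apply]
      simp
    have k0 := norm_le_pi_norm (LB σ x) (1, 0)
    have k1 := norm_le_pi_norm (LB σ x) (1, 1)
    rw [LB0, e0, e2, Real.norm_eq_abs] at k0
    rw [LB1, e0, e1, e2, Real.norm_eq_abs] at k1
    rcases hσ with rfl | rfl
    · refine abs_pair (Or.inl rfl : (1:ℝ) = 1 ∨ (1:ℝ) = -1) p q _ ?_ ?_
      · rw [one_mul] at k0
        exact k0
      · have : p + 1 * (q - 2 * q) = p - q := by ring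
        rw [this] at k1
        exact k1
    · refine abs_pair (Or.inl rfl : (1:ℝ) = 1 ∨ (1:ℝ) = -1) p q _ ?_ ?_
      · have : p + -1 * (q - 2 * q) = p + q := by ring
        rw [this] at k1
        exact k1
      · have : p + -1 * q = p - q := by ring
        rw [this] at k0
        exact k0

end

lemma maxExt_AA (x : Unit × Fin 2 → ℝ) : AA.maxExt x = |x ((), 0)| + |x ((), 1)| := by
  classical
  apply le_antisymm
  · have hx : x = x ((), 0) • bas () (0 : Fin 2) + x ((), 1) • bas () (1 : Fin 2) := by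
      funext ⟨⟨⟩, i⟩
      simp only [Pi.add_apply, Pi.smul_apply, smul_eq_mul, bas_apply]
      fin_cases i <;> simp
    conv_lhs => rw [hx]
    have hb0 : AA.maxExt (bas () (0 : Fin 2)) ≤ 1 := by
      refine (AA.maxExt_le (AA.bas_mem () (0 : Fin 2))).trans ?_
      show ‖LA (bas () (0 : Fin 2))‖ ≤ 1
      rw [norm_LA, bas_apply, bas_apply]
      simp
    have hb1 : AA.maxExt (bas () (1 : Fin 2)) ≤ 1 := by
      refine (AA.maxExt_le (AA.bas_mem () (1 : Fin 2))).trans ?_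
      show ‖LA (bas () (1 : Fin 2))‖ ≤ 1
      rw [norm_LA, bas_apply, bas_apply]
      simp
    refine (AA.maxExt_add _ _).trans (add_le_add ?_ ?_)
    · refine (AA.maxExt_smul_le _ _).trans ?_
      exact mul_le_of_le_one_right (abs_nonneg _) hb0
    · refine (AA.maxExt_smul_le _ _).trans ?_
      exact mul_le_of_le_one_right (abs_nonneg _) hb1
  · rw [← norm_LA]
    exact AA.le_maxExt LA (fun w _ => le_rfl) x

/-- the embedding of `A` into `B` and `C` -/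
noncomputable def emb {σ : ℝ} (hσ : σ = 1 ∨ σ = -1) : Emb AA (BB σ) where
  φ := (1 : Unit →* H3)
  φ_inj := fun _ _ _ => rfl
  ψ := (id : Fin 2 → Fin 2)
  ψ_inj := Function.injective_id
  isometric := fun x => by
    rw [maxExt_AA, ← maxExt_plane hσ]
    congr 1
    unfold push
    have : ∀ f : Unit × Fin 2 → (H3 × Fin 2 → ℝ), ∑ p, f p = f ((), 0) + f ((), 1) := fun f => by
      rw [Fintype.sum_prod_type]
      simp [Fin.sum_univ_two]
    exact this fun p => x p • bas ((1 : Unit →* H3) p.1) (id p.2)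

/-- **The class of the rational finitely presented actions does not have the amalgamation
property.** -/
theorem no_AP : ∃ (A B C : FPAction.{0}) (_ : A.IsRational) (_ : B.IsRational) (_ : C.IsRational)
    (e₁ : Emb A B) (e₂ : Emb A C), ∀ (D : FPAction.{u}) (f₁ : Emb B D) (f₂ : Emb C D),
      ¬ ((∀ g, f₁.φ (e₁.φ g) = f₂.φ (e₂.φ g)) ∧ ∀ i, f₁.ψ (e₁.ψ i) = f₂.ψ (e₂.ψ i)) := by
  refine ⟨AA, BB 1, BB (-1), AA_rational, BB_rational (Or.inl rfl), BB_rational (Or.inr rfl),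
    emb (Or.inl rfl), emb (Or.inr rfl), fun D f₁ f₂ h => ?_⟩
  have h1 : (BB 1).maxExt (bas (1 : H3) (0 : Fin 2)) = 1 := by
    have := maxExt_plane (Or.inl rfl : (1 : ℝ) = 1 ∨ (1 : ℝ) = -1) 1 0
    rw [one_smul, zero_smul, add_zero, abs_one, abs_zero, add_zero] at this
    exact this
  exact no_amalgam f₁ f₂ (0 : Fin 2) (1 : Fin 2) (0 : Fin 2) (1 : Fin 2) (h.2 (0 : Fin 2))
    (h.2 (1 : Fin 2)) rfl h1 (maxExt_v4 (Or.inl rfl)) (maxExt_v5 (Or.inl rfl))
    (maxExt_v4 (Or.inr rfl)) (maxExt_v5 (Or.inr rfl))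

end Pool.Agent.X171.AM
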