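import Pool.Agent.X171.AM.Basic

/-! The obstruction to amalgamation. -/

namespace Pool.Agent.X171.AM

universe u v w

/-- the contribution of one of the two sides -/
lemma side {B : FPAction.{u}} {D : FPAction.{v}} (f : Emb B D) (Ψ : (D.F × D.I → ℝ) →ₗ[ℝ] ℝ)
    (hΨ : ∀ x, Ψ x ≤ D.maxExt x) (a b : B.I) (σ : ℝ)
    (h2 : ∀ h : B.F, B.maxExt ((2 : ℝ) • bas 1 a - bas h a) ≤ 1)
    (h3 : B.maxExt ((2 : ℝ) • bas 1 a - σ • ∑ h : B.F, bas h b) ≤ 1)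
    (T : Finset D.F) (hT : ∀ g, g ∈ T ↔ 1 ≤ Ψ (bas g (f.ψ a))) :
    2 * ∑ g ∈ T, Ψ (bas g (f.ψ a)) - σ * (Fintype.card B.F * ∑ g ∈ T, Ψ (bas g (f.ψ b))) ≤
      T.card := by
  classical
  have hle : ∀ (g : D.F) (x : B.F × B.I → ℝ), B.maxExt x ≤ 1 → Ψ (act g (push f.φ f.ψ x)) ≤ 1 :=
    fun g x hx => (hΨ _).trans ((D.maxExt_act_le g _).trans (by rw [f.isometric]; exact hx))
  have e2 : ∀ (g : D.F) (h : B.F), act g (push f.φ f.ψ ((2 : ℝ) • bas 1 a - bas h a)) =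
      (2 : ℝ) • bas g (f.ψ a) - bas (g * f.φ h) (f.ψ a) := fun g h => by
    rw [push_sub, push_smul, push_bas, push_bas, act_sub, act_smul, act_bas, act_bas, map_one,
      mul_one]
  have e3 : ∀ g : D.F, act g (push f.φ f.ψ ((2 : ℝ) • bas 1 a - σ • ∑ h : B.F, bas h b)) =
      (2 : ℝ) • bas g (f.ψ a) - σ • ∑ h : B.F, bas (g * f.φ h) (f.ψ b) := fun g => by
    rw [push_sub, push_smul, push_smul, push_bas, push_sum, act_sub, act_smul, act_smul, act_bas,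
      act_sum, map_one, mul_one]
    congr 2
    exact Finset.sum_congr rfl fun h _ => by rw [push_bas, act_bas]
  have hTmul : ∀ g ∈ T, ∀ h : B.F, g * f.φ h ∈ T := by
    intro g hg h
    rw [hT] at hg ⊢
    have := hle g _ (h2 h)
    rw [e2, map_sub, map_smul, smul_eq_mul] at this
    linarith
  have hbij : ∀ h : B.F, ∑ g ∈ T, Ψ (bas (g * f.φ h) (f.ψ b)) = ∑ g ∈ T, Ψ (bas g (f.ψ b)) := by
    intro h
    refine Finset.sum_bij' (fun g _ => g * f.φ h) (fun g _ => g * f.φ h⁻¹)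
      (fun g hg => hTmul g hg h) (fun g hg => hTmul g hg h⁻¹) (fun g _ => ?_) (fun g _ => ?_)
      (fun g _ => rfl)
    · rw [mul_assoc, ← map_mul, mul_inv_cancel, map_one, mul_one]
    · rw [mul_assoc, ← map_mul, inv_mul_cancel, map_one, mul_one]
  have hsum : ∑ g ∈ T, Ψ (act g (push f.φ f.ψ ((2 : ℝ) • bas 1 a - σ • ∑ h : B.F, bas h b))) ≤
      T.card := by
    refine (Finset.sum_le_sum fun g _ => hle g _ h3).trans ?_
    simp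
  have hrw : ∑ g ∈ T, Ψ (act g (push f.φ f.ψ ((2 : ℝ) • bas 1 a - σ • ∑ h : B.F, bas h b))) =
      2 * ∑ g ∈ T, Ψ (bas g (f.ψ a)) - σ * (Fintype.card B.F * ∑ g ∈ T, Ψ (bas g (f.ψ b))) := by
    have h1 : ∀ g ∈ T, Ψ (act g (push f.φ f.ψ ((2 : ℝ) • bas 1 a - σ • ∑ h : B.F, bas h b))) =
        2 * Ψ (bas g (f.ψ a)) - σ * ∑ h : B.F, Ψ (bas (g * f.φ h) (f.ψ b)) := fun g _ => by
      rw [e3, map_sub, map_smul, map_smul, map_sum, smul_eq_mul, smul_eq_mul]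
    rw [Finset.sum_congr rfl h1, Finset.sum_sub_distrib, ← Finset.mul_sum, ← Finset.mul_sum,
      Finset.sum_comm, Finset.sum_congr rfl fun h _ => hbij h]
    simp
  rw [← hrw]
  exact hsum

/-- **The obstruction.** -/
theorem no_amalgam {B C : FPAction.{u}} {D : FPAction.{v}} (f₁ : Emb B D) (f₂ : Emb C D)
    (a b : B.I) (a' b' : C.I) (ha : f₁.ψ a = f₂.ψ a') (hb : f₁.ψ b = f₂.ψ b')
    (hcard : Fintype.card B.F = Fintype.card C.F)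
    (h1 : B.maxExt (bas 1 a) = 1)
    (h2 : ∀ h : B.F, B.maxExt ((2 : ℝ) • bas 1 a - bas h a) ≤ 1)
    (h3 : B.maxExt ((2 : ℝ) • bas 1 a - (1 : ℝ) • ∑ h : B.F, bas h b) ≤ 1)
    (h2' : ∀ h : C.F, C.maxExt ((2 : ℝ) • bas 1 a' - bas h a') ≤ 1)
    (h3' : C.maxExt ((2 : ℝ) • bas 1 a' - (-1 : ℝ) • ∑ h : C.F, bas h b') ≤ 1) : False := by
  classical
  have hD : D.maxExt (bas 1 (f₁.ψ a)) = 1 := by
    rw [← map_one f₁.φ, ← push_bas, f₁.isometric, h1]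
  obtain ⟨Ψ, hΨ1, hΨ⟩ := D.exists_functional hD
  let T : Finset D.F := Finset.univ.filter fun g => 1 ≤ Ψ (bas g (f₁.ψ a))
  have hT : ∀ g, g ∈ T ↔ 1 ≤ Ψ (bas g (f₁.ψ a)) := fun g => by simp [T]
  have hT' : ∀ g, g ∈ T ↔ 1 ≤ Ψ (bas g (f₂.ψ a')) := fun g => by rw [hT, ha]
  have k1 := side f₁ Ψ hΨ a b 1 h2 h3 T hT
  have k2 := side f₂ Ψ hΨ a' b' (-1) h2' h3' T hT'
  rw [← ha, ← hb, ← hcard] at k2
  have k3 : (T.card : ℝ) ≤ ∑ g ∈ T, Ψ (bas g (f₁.ψ a)) := by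
    have : ∑ g ∈ T, (1 : ℝ) ≤ ∑ g ∈ T, Ψ (bas g (f₁.ψ a)) :=
      Finset.sum_le_sum fun g hg => (hT g).1 hg
    simpa using this
  have k4 : 0 < T.card := Finset.card_pos.2 ⟨1, (hT 1).2 hΨ1.ge⟩
  have k5 : (0 : ℝ) < T.card := by exact_mod_cast k4
  linarith

end Pool.Agent.X171.AM
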